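import Pool.Agent.H117R2.Steiner5.General

/-!
Blocks through `∞, 0, 1` and their images under Moebius transformations with square determinant.
-/

namespace Pool.Agent.H117R2.Steiner5

open Matrix OnePoint Pointwise

set_option linter.unusedSectionVars false

variable {K : Type*} [Field K] [DecidableEq K] [DecidableEq (OnePoint K)]

/-- the six points `∞, 0, 1, a, b, c` -/
def blk (a b c : K) : Finset (OnePoint K) :=
  {∞, ((0 : K) : OnePoint K), ((1 : K) : OnePoint K), (a : OnePoint K), (b : OnePoint K),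
    (c : OnePoint K)}

theorem mem_blk {a b c : K} {x : OnePoint K} : x ∈ blk a b c ↔
    x = ∞ ∨ x = ((0 : K) : OnePoint K) ∨ x = ((1 : K) : OnePoint K) ∨ x = (a : OnePoint K) ∨
      x = (b : OnePoint K) ∨ x = (c : OnePoint K) := by
  simp [blk]

theorem blk_s12 (a b c : K) : blk a b c = blk b a c := by
  ext x
  simp only [mem_blk]
  tauto

theorem blk_s23 (a b c : K) : blk a b c = blk a c b := by
  ext x
  simp only [mem_blk]
  tauto

variable {V : K → K → K → Prop}

/-- blocks through `∞, 0, 1` -/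
def IsB0 (V : K → K → K → Prop) (B : Finset (OnePoint K)) : Prop :=
  ∃ a b c, V a b c ∧ B = blk a b c

theorem pick (D : Data V) {a b c x : K} (h : V a b c) (hx : x = a ∨ x = b ∨ x = c) :
    ∃ y z, V x y z ∧ blk a b c = blk x y z := by
  rcases hx with rfl | rfl | rfl
  · exact ⟨b, c, h, rfl⟩
  · exact ⟨a, c, D.s12 _ _ _ h, blk_s12 _ _ _⟩
  · exact ⟨a, b, D.s12 _ _ _ (D.s23 _ _ _ h), by rw [blk_s23, blk_s12]⟩

theorem pick2 (D : Data V) {a b c x : K} (h : V a b c) (hx : x = b ∨ x = c) :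
    ∃ z, V a x z ∧ blk a b c = blk a x z := by
  rcases hx with rfl | rfl
  · exact ⟨c, h, rfl⟩
  · exact ⟨b, D.s23 _ _ _ h, blk_s23 _ _ _⟩

theorem smul_blk (g : GL (Fin 2) K) (a b c : K) :
    g • blk a b c = {g • ∞, g • ((0 : K) : OnePoint K), g • ((1 : K) : OnePoint K),
      g • (a : OnePoint K), g • (b : OnePoint K), g • (c : OnePoint K)} := by
  simp only [blk, Finset.smul_finset_insert, Finset.smul_finset_singleton]

/-- the rotation `w ↦ 1 / (1 - w)` -/
def rho : GL (Fin 2) K := mob 0 1 (-1) 1 (by norm_num)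

theorem rho_sq : Sq (rho : GL (Fin 2) K) := by
  unfold Sq rho
  rw [mob_det]
  exact ⟨1, by norm_num⟩

theorem rho_infty : (rho : GL (Fin 2) K) • (∞ : OnePoint K) = ((0 : K) : OnePoint K) := by
  unfold rho
  rw [mob_infty]
  simp

theorem rho_zero : (rho : GL (Fin 2) K) • ((0 : K) : OnePoint K) = ((1 : K) : OnePoint K) := by
  unfold rho
  rw [mob_coe]
  simp

theorem rho_one : (rho : GL (Fin 2) K) • ((1 : K) : OnePoint K) = ∞ := by
  unfold rho
  rw [mob_coe]
  simp

theorem rho_coe {w : K} (hw : w ≠ 1) :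
    (rho : GL (Fin 2) K) • (w : OnePoint K) = (((1 - w)⁻¹ : K) : OnePoint K) := by
  unfold rho
  rw [mob_coe]
  have h : -1 * w + 1 ≠ 0 := by
    intro h
    apply hw
    have : w = 1 - (-1 * w + 1) := by ring
    rw [this, h, sub_zero]
  rw [if_neg h]
  congr 1
  rw [zero_mul, zero_add, one_div]
  congr 1
  ring

theorem rho_blk {a b c : K} (ha : a ≠ 1) (hb : b ≠ 1) (hc : c ≠ 1) :
    (rho : GL (Fin 2) K) • blk a b c = blk (1 - a)⁻¹ (1 - b)⁻¹ (1 - c)⁻¹ := by
  rw [smul_blk, rho_infty, rho_zero, rho_one, rho_coe ha, rho_coe hb, rho_coe hc]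
  ext x
  simp only [mem_blk, Finset.mem_insert, Finset.mem_singleton]
  tauto

theorem rho_B0 (D : Data V) {B : Finset (OnePoint K)} (hB : IsB0 V B) :
    IsB0 V ((rho : GL (Fin 2) K) • B) := by
  obtain ⟨a, b, c, h, rfl⟩ := hB
  exact ⟨_, _, _, D.R _ _ _ h, rho_blk (D.ne1 _ _ _ h) (D.ne1b h) (D.ne1c h)⟩

/-- any point of a block through `∞, 0, 1` can be moved to `∞` -/
theorem stepA (D : Data V) {B : Finset (OnePoint K)} (hB : IsB0 V B) {p : OnePoint K}
    (hp : p ∈ B) : ∃ h : GL (Fin 2) K, Sq h ∧ h • p = ∞ ∧ IsB0 V (h • B) := by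
  have key0 : ∀ B : Finset (OnePoint K), IsB0 V B → ∃ h : GL (Fin 2) K, Sq h ∧
      h • ((0 : K) : OnePoint K) = ∞ ∧ IsB0 V (h • B) := by
    intro B hB
    refine ⟨rho * rho, rho_sq.mul rho_sq, ?_, ?_⟩
    · rw [mul_smul, rho_zero, rho_one]
    · rw [mul_smul]
      exact rho_B0 D (rho_B0 D hB)
  have key1 : ∀ B : Finset (OnePoint K), IsB0 V B → ∃ h : GL (Fin 2) K, Sq h ∧
      h • ((1 : K) : OnePoint K) = ∞ ∧ IsB0 V (h • B) := by
    intro B hB
    exact ⟨rho, rho_sq, rho_one, rho_B0 D hB⟩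
  have keya : ∀ a b c : K, V a b c → ∃ h : GL (Fin 2) K, Sq h ∧
      h • (a : OnePoint K) = ∞ ∧ IsB0 V (h • blk a b c) := by
    intro a b c h
    have ha0 := D.ne0 _ _ _ h
    by_cases hs : IsSquare a
    · have hd : (1 : K) * a - 0 * 0 ≠ 0 := by simpa using ha0
      set g := mob 1 0 0 a hd with hg
      have hgs : Sq g := by
        unfold Sq
        rw [hg, mob_det]
        simpa using hs
      have g1 : g • (∞ : OnePoint K) = ∞ := by rw [hg, mob_infty]; simp
      have g2 : ∀ w : K, g • (w : OnePoint K) = ((w * a⁻¹ : K) : OnePoint K) := by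
        intro w
        rw [hg, mob_coe]
        simp [ha0, div_eq_mul_inv]
      have g3 : g • (a : OnePoint K) = ((1 : K) : OnePoint K) := by
        rw [g2, mul_inv_cancel₀ ha0]
      have hB : IsB0 V (g • blk a b c) := by
        refine ⟨_, _, _, D.C0 _ _ _ hs h, ?_⟩
        rw [smul_blk, g1, g2, g2, g3, g2, g2]
        ext x
        simp only [mem_blk, Finset.mem_insert, Finset.mem_singleton, zero_mul, one_mul]
        tauto
      obtain ⟨h1, h2, h3, h4⟩ := key1 _ hB
      refine ⟨h1 * g, h2.mul hgs, ?_, ?_⟩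
      · rw [mul_smul, g3, h3]
      · rw [mul_smul]
        exact h4
    · have hd : (-1 : K) * a - a * 0 ≠ 0 := by simpa using ha0
      set g := mob (-1) a 0 a hd with hg
      have hgs : Sq g := by
        unfold Sq
        rw [hg, mob_det]
        simpa using D.sq_neg hs
      have g1 : g • (∞ : OnePoint K) = ∞ := by rw [hg, mob_infty]; simp
      have g2 : ∀ w : K, g • (w : OnePoint K) = ((1 - w * a⁻¹ : K) : OnePoint K) := by
        intro w
        rw [hg, mob_coe, if_neg (by simpa using ha0)]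
        congr 1
        rw [zero_mul, zero_add]
        field_simp
        ring
      have g3 : g • (a : OnePoint K) = ((0 : K) : OnePoint K) := by
        rw [g2, mul_inv_cancel₀ ha0, sub_self]
      have hB : IsB0 V (g • blk a b c) := by
        refine ⟨_, _, _, D.C0' _ _ _ hs h, ?_⟩
        rw [smul_blk, g1, g2, g2, g3, g2, g2]
        ext x
        simp only [mem_blk, Finset.mem_insert, Finset.mem_singleton, zero_mul, one_mul, sub_zero]
        tauto
      obtain ⟨h1, h2, h3, h4⟩ := key0 _ hB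
      refine ⟨h1 * g, h2.mul hgs, ?_, ?_⟩
      · rw [mul_smul, g3, h3]
      · rw [mul_smul]
        exact h4
  obtain ⟨a, b, c, h, rfl⟩ := hB
  rcases mem_blk.1 hp with rfl | rfl | rfl | hp | hp | hp
  · exact ⟨1, Sq.one, one_smul _ _, by rw [one_smul]; exact ⟨a, b, c, h, rfl⟩⟩
  · exact key0 _ ⟨a, b, c, h, rfl⟩
  · exact key1 _ ⟨a, b, c, h, rfl⟩
  · subst hp
    exact keya _ _ _ h
  · subst hp
    obtain ⟨y, z, h1, h2⟩ := pick D h (Or.inr (Or.inl rfl))
    rw [h2]
    exact keya _ _ _ h1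
  · subst hp
    obtain ⟨y, z, h1, h2⟩ := pick D h (Or.inr (Or.inr rfl))
    rw [h2]
    exact keya _ _ _ h1

/-- a transformation fixing `∞` is determined by the preimages of `0` and `1` -/
theorem affine {g : GL (Fin 2) K} (hg : Sq g) (h : g • (∞ : OnePoint K) = ∞) {u v : K}
    (hu : g • (u : OnePoint K) = ((0 : K) : OnePoint K))
    (hv : g • (v : OnePoint K) = ((1 : K) : OnePoint K)) :
    v - u ≠ 0 ∧ IsSquare (v - u) ∧
      ∀ w : K, g • (w : OnePoint K) = (((w - u) / (v - u) : K) : OnePoint K) := by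
  have h10 : g 1 0 = 0 := smul_infty_eq_self_iff.1 h
  have hdet : ((GeneralLinearGroup.det g : Kˣ) : K) = g 0 0 * g 1 1 := by
    have : ((GeneralLinearGroup.det g : Kˣ) : K) = (g : Matrix (Fin 2) (Fin 2) K).det := rfl
    rw [this, Matrix.det_fin_two, h10]
    ring
  have hne : g 0 0 * g 1 1 ≠ 0 := by
    rw [← hdet]
    exact Units.ne_zero _
  have h00 : g 0 0 ≠ 0 := left_ne_zero_of_mul hne
  have h11 : g 1 1 ≠ 0 := right_ne_zero_of_mul hne
  have hw : ∀ w : K, g • (w : OnePoint K) = (((g 0 0 * w + g 0 1) / g 1 1 : K) : OnePoint K) := by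
    intro w
    rw [smul_some_eq_ite, h10, zero_mul, zero_add, if_neg h11, ← OnePoint.coe_eq_coe]
  rw [hw, OnePoint.coe_eq_coe] at hu hv
  have hu' : g 0 0 * u + g 0 1 = 0 := by
    rw [div_eq_iff h11, zero_mul] at hu
    exact hu
  have hv' : g 0 0 * v + g 0 1 = g 1 1 := by
    rw [div_eq_iff h11, one_mul] at hv
    exact hv
  have e1 : g 1 1 = g 0 0 * (v - u) := by
    linear_combination -hv' + hu'
  have hvu : v - u ≠ 0 := by
    intro h0
    rw [h0, mul_zero] at e1
    exact h11 e1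
  refine ⟨hvu, ?_, ?_⟩
  · have hs : IsSquare (g 0 0 * g 1 1) := by
      rw [← hdet]
      exact hg
    have : v - u = (g 0 0 * g 1 1) * ((g 0 0)⁻¹ * (g 0 0)⁻¹) := by
      rw [e1]
      field_simp
    rw [this]
    exact hs.mul ⟨_, rfl⟩
  · intro w
    rw [hw, OnePoint.coe_eq_coe, e1]
    have : g 0 1 = - (g 0 0 * u) := by linear_combination hu'
    rw [this]
    field_simp
    ring

end Pool.Agent.H117R2.Steiner5
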