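import Pool.Agent.H117R2.Steiner5.Transport

/-!
Verification of the table of a derived triple system over `ZMod p` by a Boolean program, and the
Steiner 5-design it gives.
-/

namespace Pool.Agent.H117R2.Steiner5

/-! ### The Boolean program -/

noncomputable def band (a b : Bool) : Bool := @Bool.rec (fun _ => Bool) false b a

noncomputable def bor (a b : Bool) : Bool := @Bool.rec (fun _ => Bool) b true a

noncomputable def bnot (a : Bool) : Bool := @Bool.rec (fun _ => Bool) true false a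

noncomputable def loop (f : ℕ → Bool) (n : ℕ) : Bool :=
  @Nat.rec (fun _ => Bool) true (fun k ih => band (f k) ih) n

/-- the `y`-th digit of `r` in base `2^w` -/
def cell (w r y : ℕ) : ℕ := Nat.mod (Nat.shiftRight r (Nat.mul w y)) (Nat.shiftLeft 1 w)

/-- the table entry `T x y` -/
def tab (p w t x y : ℕ) : ℕ := cell w (cell (Nat.mul w p) t x) y

/-- `1 - u` modulo `p` -/
def om (p u : ℕ) : ℕ := Nat.mod (Nat.sub (Nat.add p 1) u) p

noncomputable def chkSmall (p w INV RHO SQ RT : ℕ) : Bool :=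
  loop (fun x => band (Nat.beq (cell 1 SQ (Nat.mod (Nat.mul x x) p)) 1)
    (band (bor (Nat.beq (cell 1 SQ x) 0)
      (Nat.beq (Nat.mod (Nat.mul (cell w RT x) (cell w RT x)) p) x))
    (band (bor (Nat.beq (cell 1 SQ x) 1) (Nat.beq (cell 1 SQ (Nat.mod (Nat.sub p x) p)) 1))
    (bor (Nat.ble x 1)
      (band (Nat.ble (Nat.succ (cell w INV x)) p)
      (band (Nat.beq (Nat.mod (Nat.mul x (cell w INV x)) p) 1)
      (band (Nat.ble (Nat.succ (cell w RHO x)) p)
      (Nat.beq (Nat.mod (Nat.mul (cell w RHO x) (Nat.sub (Nat.add p 1) x)) p) 1)))))))) p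

noncomputable def chkPair (p w t INV RHO SQ x y : ℕ) : Bool :=
  bor (Nat.ble y 1) (bor (Nat.beq y x)
    (band (Nat.ble 2 (tab p w t x y))
    (band (Nat.ble (Nat.succ (tab p w t x y)) p)
    (band (bnot (Nat.beq (tab p w t x y) x))
    (band (bnot (Nat.beq (tab p w t x y) y))
    (band (Nat.beq (tab p w t x (tab p w t x y)) y)
    (band (Nat.beq (tab p w t y x) (tab p w t x y))
    (band (Nat.beq (tab p w t (cell w RHO x) (cell w RHO y)) (cell w RHO (tab p w t x y)))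
    (@Bool.rec (fun _ => Bool)
      (Nat.beq (tab p w t (om p (cell w INV x)) (om p (Nat.mod (Nat.mul y (cell w INV x)) p)))
        (om p (Nat.mod (Nat.mul (tab p w t x y) (cell w INV x)) p)))
      (Nat.beq (tab p w t (cell w INV x) (Nat.mod (Nat.mul y (cell w INV x)) p))
        (Nat.mod (Nat.mul (tab p w t x y) (cell w INV x)) p))
      (Nat.beq (cell 1 SQ x) 1))))))))))

/-- check of the rows `x` with `a ≤ x < a + n` -/
noncomputable def chkRows (p w t INV RHO SQ a n : ℕ) : Bool :=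
  loop (fun k => bor (Nat.ble (Nat.add a k) 1)
    (loop (chkPair p w t INV RHO SQ (Nat.add a k)) p)) n

/-! ### Specifications -/

theorem band_iff {a b : Bool} : band a b = true ↔ a = true ∧ b = true := by
  cases a <;> cases b <;> simp [band]

theorem bor_iff {a b : Bool} : bor a b = true ↔ a = true ∨ b = true := by
  cases a <;> cases b <;> simp [bor]

theorem bnot_iff {a : Bool} : bnot a = true ↔ ¬ (a = true) := by
  cases a <;> simp [bnot]

theorem loop_spec {f : ℕ → Bool} {n : ℕ} (h : loop f n = true) : ∀ k < n, f k = true := by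
  induction n with
  | zero => intro k hk; omega
  | succ n ih =>
    have h' : band (f n) (loop f n) = true := h
    rw [band_iff] at h'
    intro k hk
    rcases Nat.lt_succ_iff_lt_or_eq.1 hk with h1 | rfl
    · exact ih h'.2 k h1
    · exact h'.1

theorem beq_iff {a b : ℕ} : Nat.beq a b = true ↔ a = b :=
  ⟨Nat.eq_of_beq_eq_true, fun h => h ▸ Nat.beq_refl a⟩

theorem ble_iff {a b : ℕ} : Nat.ble a b = true ↔ a ≤ b :=
  ⟨Nat.le_of_ble_eq_true, Nat.ble_eq_true_of_le⟩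

/-- what the Boolean program checks -/
structure NatOK (p w t INV RHO SQ : ℕ) : Prop where
  sq1 : ∀ x < p, cell 1 SQ (x * x % p) = 1
  sq2 : ∀ x < p, cell 1 SQ x ≠ 0 → ∃ y, y * y % p = x
  dich : ∀ x < p, cell 1 SQ x = 1 ∨ cell 1 SQ ((p - x) % p) = 1
  inv : ∀ x < p, 2 ≤ x → cell w INV x < p ∧ x * cell w INV x % p = 1
  rho : ∀ x < p, 2 ≤ x → cell w RHO x < p ∧ cell w RHO x * (p + 1 - x) % p = 1
  pair : ∀ x < p, 2 ≤ x → ∀ y < p, 2 ≤ y → y ≠ x →
    2 ≤ tab p w t x y ∧ tab p w t x y < p ∧ tab p w t x y ≠ x ∧ tab p w t x y ≠ y ∧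
    tab p w t x (tab p w t x y) = y ∧ tab p w t y x = tab p w t x y ∧
    tab p w t (cell w RHO x) (cell w RHO y) = cell w RHO (tab p w t x y) ∧
    (cell 1 SQ x = 1 → tab p w t (cell w INV x) (y * cell w INV x % p) =
      tab p w t x y * cell w INV x % p) ∧
    (cell 1 SQ x ≠ 1 → tab p w t ((p + 1 - cell w INV x) % p)
      ((p + 1 - y * cell w INV x % p) % p) = (p + 1 - tab p w t x y * cell w INV x % p) % p)

theorem rec_iff {a b c : Bool} : @Bool.rec (fun _ => Bool) a b c = true ↔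
    (c = true → b = true) ∧ (¬ (c = true) → a = true) := by
  cases c <;> simp

theorem pair_of_chk {p w t INV RHO SQ x y : ℕ} (h : chkPair p w t INV RHO SQ x y = true)
    (hy : 2 ≤ y) (hyx : y ≠ x) :
    2 ≤ tab p w t x y ∧ tab p w t x y < p ∧ tab p w t x y ≠ x ∧ tab p w t x y ≠ y ∧
    tab p w t x (tab p w t x y) = y ∧ tab p w t y x = tab p w t x y ∧
    tab p w t (cell w RHO x) (cell w RHO y) = cell w RHO (tab p w t x y) ∧
    (cell 1 SQ x = 1 → tab p w t (cell w INV x) (y * cell w INV x % p) =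
      tab p w t x y * cell w INV x % p) ∧
    (cell 1 SQ x ≠ 1 → tab p w t ((p + 1 - cell w INV x) % p)
      ((p + 1 - y * cell w INV x % p) % p) = (p + 1 - tab p w t x y * cell w INV x % p) % p) := by
  unfold chkPair at h
  simp only [bor_iff, band_iff, bnot_iff, beq_iff, ble_iff, rec_iff] at h
  rcases h with h | h | h
  · omega
  · exact absurd h hyx
  · obtain ⟨h1, h2, h3, h4, h5, h6, h7, h8, h9⟩ := h
    exact ⟨h1, h2, h3, h4, h5, h6, h7, h8, h9⟩

theorem natOK_of_chk {p w t INV RHO SQ RT : ℕ} (h1 : chkSmall p w INV RHO SQ RT = true)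
    (h2 : ∀ x < p, 2 ≤ x → ∃ a n, a ≤ x ∧ x < a + n ∧ chkRows p w t INV RHO SQ a n = true) :
    NatOK p w t INV RHO SQ := by
  have h3 := loop_spec h1
  simp only [bor_iff, band_iff, beq_iff, ble_iff] at h3
  refine ⟨?_, ?_, ?_, ?_, ?_, ?_⟩
  · intro x hx
    exact (h3 x hx).1
  · intro x hx h0
    rcases (h3 x hx).2.1 with h | h
    · exact absurd h h0
    · exact ⟨_, h⟩
  · intro x hx
    exact (h3 x hx).2.2.1
  · intro x hx hx2
    rcases (h3 x hx).2.2.2 with h | h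
    · omega
    · exact ⟨h.1, h.2.1⟩
  · intro x hx hx2
    rcases (h3 x hx).2.2.2 with h | h
    · omega
    · exact ⟨h.2.2.1, h.2.2.2⟩
  · intro x hx hx2 y hy hy2 hyx
    obtain ⟨a, n, ha, hn, h4⟩ := h2 x hx hx2
    have h5 := loop_spec h4 (x - a) (by omega)
    rw [bor_iff, ble_iff, show Nat.add a (x - a) = x from Nat.add_sub_cancel' ha] at h5
    rcases h5 with h5 | h5
    · omega
    · exact pair_of_chk (loop_spec h5 y hy) hy2 hyx

/-! ### From the table to the triple relation over `ZMod p` -/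

section
variable {p w t INV RHO SQ : ℕ} [Fact p.Prime]

/-- the triple relation given by the table -/
def Vt (p w t : ℕ) (a b c : ZMod p) : Prop :=
  (a ≠ 0 ∧ a ≠ 1) ∧ (b ≠ 0 ∧ b ≠ 1) ∧ b ≠ a ∧ c = ((tab p w t a.val b.val : ℕ) : ZMod p)

theorem two_le_val {a : ZMod p} (h0 : a ≠ 0) (h1 : a ≠ 1) : 2 ≤ a.val := by
  have e := ZMod.natCast_zmod_val a
  by_contra h
  have h2 : a.val = 0 ∨ a.val = 1 := by omega
  rcases h2 with h2 | h2
  · rw [h2, Nat.cast_zero] at e
    exact h0 e.symm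
  · rw [h2, Nat.cast_one] at e
    exact h1 e.symm

theorem inv_val (O : NatOK p w t INV RHO SQ) {a : ZMod p} (h0 : a ≠ 0) (h1 : a ≠ 1) :
    (a⁻¹).val = cell w INV a.val := by
  obtain ⟨h2, h3⟩ := O.inv a.val (ZMod.val_lt a) (two_le_val h0 h1)
  have h4 : a * ((cell w INV a.val : ℕ) : ZMod p) = 1 := by
    have h5 : ((a.val * cell w INV a.val : ℕ) : ZMod p) = ((1 : ℕ) : ZMod p) := by
      rw [ZMod.natCast_eq_natCast_iff']
      rw [h3, Nat.mod_eq_of_lt (Fact.out : p.Prime).one_lt]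
    rwa [Nat.cast_mul, ZMod.natCast_zmod_val, Nat.cast_one] at h5
  rw [inv_eq_of_mul_eq_one_right h4, ZMod.val_cast_of_lt h2]

theorem rho_val (O : NatOK p w t INV RHO SQ) {a : ZMod p} (h0 : a ≠ 0) (h1 : a ≠ 1) :
    ((1 - a)⁻¹).val = cell w RHO a.val := by
  obtain ⟨h2, h3⟩ := O.rho a.val (ZMod.val_lt a) (two_le_val h0 h1)
  have h4 : (1 - a) * ((cell w RHO a.val : ℕ) : ZMod p) = 1 := by
    have h5 : ((cell w RHO a.val * (p + 1 - a.val) : ℕ) : ZMod p) = ((1 : ℕ) : ZMod p) := by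
      rw [ZMod.natCast_eq_natCast_iff']
      rw [h3, Nat.mod_eq_of_lt (Fact.out : p.Prime).one_lt]
    have h6 : a.val ≤ p + 1 := (ZMod.val_lt a).le.trans (Nat.le_succ p)
    rw [Nat.cast_mul, Nat.cast_sub h6, ZMod.natCast_zmod_val, Nat.cast_add, Nat.cast_one,
      ZMod.natCast_self, zero_add] at h5
    rw [mul_comm]
    exact h5
  rw [inv_eq_of_mul_eq_one_right h4, ZMod.val_cast_of_lt h2]

theorem om_val (a : ZMod p) : (1 - a).val = (p + 1 - a.val) % p := by
  have h6 : a.val ≤ p + 1 := (ZMod.val_lt a).le.trans (Nat.le_succ p)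
  have : ((p + 1 - a.val : ℕ) : ZMod p) = 1 - a := by
    rw [Nat.cast_sub h6, ZMod.natCast_zmod_val, Nat.cast_add, Nat.cast_one,
      ZMod.natCast_self, zero_add]
  rw [← this, ZMod.val_natCast]

theorem sq_iff (O : NatOK p w t INV RHO SQ) (a : ZMod p) : IsSquare a ↔ cell 1 SQ a.val = 1 := by
  constructor
  · rintro ⟨b, rfl⟩
    rw [ZMod.val_mul]
    exact O.sq1 _ (ZMod.val_lt b)
  · intro h
    obtain ⟨y, hy⟩ := O.sq2 a.val (ZMod.val_lt a) (by rw [h]; exact one_ne_zero)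
    refine ⟨(y : ZMod p), ?_⟩
    rw [← ZMod.natCast_zmod_val a, ← hy, ZMod.natCast_mod, Nat.cast_mul]

/-- the table satisfies the hypotheses of the general construction -/
theorem data_of_natOK (O : NatOK p w t INV RHO SQ) (hneg : cell 1 SQ (p - 1) = 0) :
    Data (Vt p w t) := by
  have key : ∀ a b : ZMod p, a ≠ 0 → a ≠ 1 → b ≠ 0 → b ≠ 1 → b ≠ a → _ :=
    fun a b ha0 ha1 hb0 hb1 hba => O.pair a.val (ZMod.val_lt a) (two_le_val ha0 ha1) b.val
      (ZMod.val_lt b) (two_le_val hb0 hb1) (fun h => hba (ZMod.val_injective p h))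
  have cval : ∀ a b : ZMod p, a ≠ 0 → a ≠ 1 → b ≠ 0 → b ≠ 1 → b ≠ a →
      (((tab p w t a.val b.val : ℕ) : ZMod p)).val = tab p w t a.val b.val :=
    fun a b ha0 ha1 hb0 hb1 hba => ZMod.val_cast_of_lt (key a b ha0 ha1 hb0 hb1 hba).2.1
  have cne : ∀ a b : ZMod p, a ≠ 0 → a ≠ 1 → b ≠ 0 → b ≠ 1 → b ≠ a →
      (((tab p w t a.val b.val : ℕ) : ZMod p)) ≠ 0 ∧ (((tab p w t a.val b.val : ℕ) : ZMod p)) ≠ 1 ∧
      (((tab p w t a.val b.val : ℕ) : ZMod p)) ≠ a ∧
      (((tab p w t a.val b.val : ℕ) : ZMod p)) ≠ b := by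
    intro a b ha0 ha1 hb0 hb1 hba
    have h := key a b ha0 ha1 hb0 hb1 hba
    have hv := cval a b ha0 ha1 hb0 hb1 hba
    refine ⟨?_, ?_, ?_, ?_⟩
    · intro h0
      rw [h0, ZMod.val_zero] at hv
      omega
    · intro h0
      have : Fact (1 < p) := ⟨(Fact.out : p.Prime).one_lt⟩
      rw [h0, ZMod.val_one] at hv
      omega
    · intro h0
      rw [h0] at hv
      exact h.2.2.1 hv.symm
    · intro h0
      rw [h0] at hv
      exact h.2.2.2.1 hv.symm
  refine ⟨?_, ?_, ?_, ?_, ?_, ?_, ?_, ?_, ?_, ?_, ?_, ?_⟩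
  · rintro a b c ⟨ha, _⟩
    exact ha.1
  · rintro a b c ⟨ha, _⟩
    exact ha.2
  · rintro a b c ⟨ha, hb, hba, _⟩
    exact hba.symm
  · -- s12
    rintro a b c ⟨ha, hb, hba, rfl⟩
    have h := key a b ha.1 ha.2 hb.1 hb.2 hba
    exact ⟨hb, ha, hba.symm, by rw [h.2.2.2.2.2.1]⟩
  · -- s23
    rintro a b c ⟨ha, hb, hba, rfl⟩
    have h := key a b ha.1 ha.2 hb.1 hb.2 hba
    have hv := cval a b ha.1 ha.2 hb.1 hb.2 hba
    have hn := cne a b ha.1 ha.2 hb.1 hb.2 hba
    refine ⟨ha, ⟨hn.1, hn.2.1⟩, hn.2.2.1, ?_⟩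
    rw [hv, h.2.2.2.2.1, ZMod.natCast_zmod_val]
  · -- ex
    intro a b ha0 ha1 hb0 hb1 hab
    exact ⟨_, ⟨ha0, ha1⟩, ⟨hb0, hb1⟩, hab.symm, rfl⟩
  · -- uniq
    rintro a b c c' ⟨_, _, _, h1⟩ ⟨_, _, _, h2⟩
    rw [h1, h2]
  · -- R
    rintro a b c ⟨ha, hb, hba, rfl⟩
    have h := key a b ha.1 ha.2 hb.1 hb.2 hba
    have hv := cval a b ha.1 ha.2 hb.1 hb.2 hba
    have hn := cne a b ha.1 ha.2 hb.1 hb.2 hba
    have h1a : 1 - a ≠ 0 := sub_ne_zero.2 ha.2.symm
    have h1b : 1 - b ≠ 0 := sub_ne_zero.2 hb.2.symm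
    refine ⟨⟨inv_ne_zero h1a, ?_⟩, ⟨inv_ne_zero h1b, ?_⟩, ?_, ?_⟩
    · intro h0
      rw [inv_eq_one] at h0
      exact ha.1 (by linear_combination -h0)
    · intro h0
      rw [inv_eq_one] at h0
      exact hb.1 (by linear_combination -h0)
    · intro h0
      have := inv_injective h0
      exact hba (by linear_combination -this)
    · rw [rho_val O ha.1 ha.2, rho_val O hb.1 hb.2, h.2.2.2.2.2.2.1]
      have := rho_val O hn.1 hn.2.1
      rw [hv] at this
      rw [← this, ZMod.natCast_zmod_val]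
  · -- C0
    rintro a b c hs ⟨ha, hb, hba, rfl⟩
    have h := key a b ha.1 ha.2 hb.1 hb.2 hba
    have hv := cval a b ha.1 ha.2 hb.1 hb.2 hba
    refine ⟨⟨inv_ne_zero ha.1, fun h0 => ha.2 (inv_eq_one.1 h0)⟩,
      ⟨mul_ne_zero hb.1 (inv_ne_zero ha.1), ?_⟩, ?_, ?_⟩
    · intro h0
      exact hba ((mul_inv_eq_one₀ ha.1).1 h0)
    · intro h0
      apply hb.2
      have h2 : (b - 1) * a⁻¹ = 0 := by linear_combination h0
      rcases mul_eq_zero.1 h2 with h3 | h3
      · linear_combination h3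
      · exact absurd h3 (inv_ne_zero ha.1)
    · rw [ZMod.val_mul, inv_val O ha.1 ha.2, h.2.2.2.2.2.2.2.1 ((sq_iff O a).1 hs),
        ZMod.natCast_mod, Nat.cast_mul, ← inv_val O ha.1 ha.2, ZMod.natCast_zmod_val]
  · -- C0'
    rintro a b c hs ⟨ha, hb, hba, rfl⟩
    have h := key a b ha.1 ha.2 hb.1 hb.2 hba
    have hv := cval a b ha.1 ha.2 hb.1 hb.2 hba
    refine ⟨⟨?_, ?_⟩, ⟨?_, ?_⟩, ?_, ?_⟩
    · intro h0
      exact ha.2 (inv_eq_one.1 (sub_eq_zero.1 h0).symm)
    · intro h0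
      exact inv_ne_zero ha.1 (by linear_combination -h0)
    · intro h0
      exact hba ((mul_inv_eq_one₀ ha.1).1 (sub_eq_zero.1 h0).symm)
    · intro h0
      exact mul_ne_zero hb.1 (inv_ne_zero ha.1) (by linear_combination -h0)
    · intro h0
      apply hb.2
      have h2 : (b - 1) * a⁻¹ = 0 := by linear_combination -h0
      rcases mul_eq_zero.1 h2 with h3 | h3
      · linear_combination h3
      · exact absurd h3 (inv_ne_zero ha.1)
    · rw [om_val, om_val, ZMod.val_mul, inv_val O ha.1 ha.2,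
        h.2.2.2.2.2.2.2.2 (fun h8 => hs ((sq_iff O a).2 h8)), ← inv_val O ha.1 ha.2]
      conv_rhs => rw [← hv, ← ZMod.val_mul, ← om_val, ZMod.natCast_zmod_val]
  · -- dich
    intro a
    rcases O.dich a.val (ZMod.val_lt a) with h | h
    · exact Or.inl ((sq_iff O a).2 h)
    · right
      rw [sq_iff O, ZMod.neg_val']
      exact h
  · -- neg
    rw [sq_iff O, ZMod.neg_val']
    have : Fact (1 < p) := ⟨(Fact.out : p.Prime).one_lt⟩
    have h1 : 1 < p := (Fact.out : p.Prime).one_lt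
    rw [ZMod.val_one, Nat.mod_eq_of_lt (by omega), hneg]
    exact zero_ne_one

end

/-- a table that passes the check gives a Steiner system `S(p+1, 6, 5)` -/
theorem steiner_of_chk {p w t INV RHO SQ RT : ℕ} (hp : p.Prime)
    (h1 : chkSmall p w INV RHO SQ RT = true) (hneg : cell 1 SQ (p - 1) = 0)
    (h2 : ∀ x < p, 2 ≤ x → ∃ a n, a ≤ x ∧ x < a + n ∧ chkRows p w t INV RHO SQ a n = true) :
    ∃ 𝓑 : Finset (Finset (Fin (p + 1))), IsSteiner (p + 1) 6 5 𝓑 := by
  have : Fact p.Prime := ⟨hp⟩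
  have h := steiner_of_data (data_of_natOK (natOK_of_chk h1 h2) hneg)
  rwa [ZMod.card] at h

end Pool.Agent.H117R2.Steiner5
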