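import Pool.Agent.H117R2.Steiner5.Check

/-!
The table of the Steiner system `S(5,6,12)` found by computer (1 block orbits of `PSL(2,11)`).
-/

namespace Pool.Agent.H117R2.Steiner5.D11

/-- table of the triple system of the blocks through `∞, 0, 1`: digit `11 x + y` in base `2^8` is
the third point of the triple through `x` and `y` -/
def tbl : ℕ := 0x3050607080209040000030004050207080a06000005040002030a0906070000060502000a0903040800000702030a0004050809000008070a090400060203000002080903050600070a0000090a0604080207000500000406070809030a0500000000000000000000000000000000000000000000000000

/-- inverses -/
def invs : ℕ := 0xa05070802090304060000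

/-- values of `1 / (1 - x)` -/
def rhos : ℕ := 0x6040309020807050a0000

/-- squares -/
def sqs : ℕ := 0x23b

/-- square roots -/
def rts : ℕ := 0x3000000040205000100

end Pool.Agent.H117R2.Steiner5.D11
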