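import Pool.Agent.H117R2.Steiner5.Check

/-!
The table of the Steiner system `S(5,6,24)` found by computer (3 block orbits of `PSL(2,23)`).
-/

namespace Pool.Agent.H117R2.Steiner5.D23

/-- table of the triple system of the blocks through `∞, 0, 1`: digit `23 x + y` in base `2^8` is
the third point of the triple through `x` and `y` -/
def tbl : ℕ := 0xc120a140506030802150713040e0b1011090f0d00000c000502100312060d0e1609040b07080f140a11130000120500031609080c07040f020611100e0a150d130b00000a020300040f0c1109081005160e0d06070b121415000014101604000d15070a110b0c0e08090f020313050600000503090f0d000e1310120a040c14060208160b150700000612080c150e000a110513030f071409160d020b04000003060c1107130a00040b140d1002051215080e16090000080d07090a10110400150506121316140b0c0f02030000020e04081112050b1500070f090a130c0310140616000015160f100b0a1314050700121103020d040e0609080000070902050c04030d060f120008150a160e131110140000130406160e0c0f1012091108000d0b0314021507050000040b110e08140702130a03150d0012100506160c0f00000e07100d090614051613020a0b120015110f03040c00000b080e060f020912140c0d16031015001304050a110000100f0a07020816150b03040e1405111300090c0d1200001114150b03160d080c100e1302060f04090007120a0000090a0d12130b020e0f140611151603050c0700081000000f11131405150b1602060910070c040a0d1208000e00000d130b150607040903160814050f0c11120a100e00000000000000000000000000000000000000000000000000000000000000000000000000000000000000000000000000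

/-- inverses -/
def invs : ℕ := 0x160b0f1109130d14051002150712030a040e06080c0000

/-- values of `1 / (1 - x)` -/
def rhos : ℕ := 0xc08060e040a03120715021005140d1309110f0b160000

/-- squares -/
def sqs : ℕ := 0x5335f

/-- square roots -/
def rts : ℕ := 0x80004000006090000030a000b000207050100

end Pool.Agent.H117R2.Steiner5.D23
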