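import Pool.Agent.H117R2.Steiner5.Blocks

/-!
The Steiner 5-design determined by the blocks through `∞, 0, 1`.
-/

namespace Pool.Agent.H117R2.Steiner5

open Matrix OnePoint Pointwise

set_option linter.unusedSectionVars false

variable {K : Type*} [Field K] [DecidableEq K] [DecidableEq (OnePoint K)]

variable {V : K → K → K → Prop}

theorem or_p1 {P A B C D E : Prop} : (P ∨ A ∨ B ∨ C ∨ D ∨ E) ↔ (P ∨ A ∨ C ∨ B ∨ D ∨ E) := by
  tauto
theorem or_p2 {P A B C D E : Prop} : (P ∨ A ∨ B ∨ C ∨ D ∨ E) ↔ (P ∨ B ∨ C ∨ A ∨ D ∨ E) := by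
  tauto
theorem or_p3 {P A B C D E : Prop} : (P ∨ A ∨ B ∨ C ∨ D ∨ E) ↔ (P ∨ C ∨ A ∨ B ∨ D ∨ E) := by
  tauto
theorem or_p4 {P A B C D E : Prop} : (P ∨ A ∨ B ∨ C ∨ D ∨ E) ↔ (P ∨ C ∨ B ∨ A ∨ D ∨ E) := by
  tauto
theorem or_p5 {P A B C D E : Prop} : (P ∨ A ∨ B ∨ C ∨ D ∨ E) ↔ (P ∨ C ∨ D ∨ A ∨ B ∨ E) := by
  tauto

/-- image of a block through `∞, 0, 1` under a transformation fixing `∞` -/
theorem smul_blk_aff {g : GL (Fin 2) K} (h : g • (∞ : OnePoint K) = ∞) {u v : K}
    (hw : ∀ w : K, g • (w : OnePoint K) = (((w - u) / (v - u) : K) : OnePoint K)) (a b c : K) :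
    g • blk a b c = {∞, (((0 - u) / (v - u) : K) : OnePoint K),
      (((1 - u) / (v - u) : K) : OnePoint K), (((a - u) / (v - u) : K) : OnePoint K),
      (((b - u) / (v - u) : K) : OnePoint K), (((c - u) / (v - u) : K) : OnePoint K)} := by
  rw [smul_blk, h, hw, hw, hw, hw, hw]

theorem stepB (D : Data V) {B : Finset (OnePoint K)} (hB : IsB0 V B) {g : GL (Fin 2) K}
    (hg : Sq g) (h : g • (∞ : OnePoint K) = ∞) (h0 : ((0 : K) : OnePoint K) ∈ g • B)
    (h1 : ((1 : K) : OnePoint K) ∈ g • B) : IsB0 V (g • B) := by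
  obtain ⟨a, b, c, hV, rfl⟩ := hB
  obtain ⟨u', hu', hu⟩ := Finset.mem_smul_finset.1 h0
  obtain ⟨v', hv', hv⟩ := Finset.mem_smul_finset.1 h1
  have hfin : ∀ x : OnePoint K, x ∈ blk a b c → g • x ≠ ∞ → ∃ w : K, x = (w : OnePoint K) ∧
      (w = 0 ∨ w = 1 ∨ w = a ∨ w = b ∨ w = c) := by
    intro x hx hne
    rcases mem_blk.1 hx with rfl | rfl | rfl | rfl | rfl | rfl
    · exact absurd h hne
    · exact ⟨0, rfl, Or.inl rfl⟩
    · exact ⟨1, rfl, Or.inr (Or.inl rfl)⟩
    · exact ⟨a, rfl, Or.inr (Or.inr (Or.inl rfl))⟩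
    · exact ⟨b, rfl, Or.inr (Or.inr (Or.inr (Or.inl rfl)))⟩
    · exact ⟨c, rfl, Or.inr (Or.inr (Or.inr (Or.inr rfl)))⟩
  obtain ⟨u, rfl, hu2⟩ := hfin u' hu' (by rw [hu]; exact OnePoint.coe_ne_infty _)
  obtain ⟨v, rfl, hv2⟩ := hfin v' hv' (by rw [hv]; exact OnePoint.coe_ne_infty _)
  obtain ⟨hne, hsq, hw⟩ := affine hg h hu hv
  clear hfin hu' hv' h0 h1 hu hv
  have hne' : v ≠ u := sub_ne_zero.1 hne
  -- it is enough to produce the new triple
  have fin : ∀ a' b' c' : K, V a' b' c' →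
      (∀ x : OnePoint K, (x = ∞ ∨ x = (((0 - u) / (v - u) : K) : OnePoint K) ∨
        x = (((1 - u) / (v - u) : K) : OnePoint K) ∨ x = (((a - u) / (v - u) : K) : OnePoint K) ∨
        x = (((b - u) / (v - u) : K) : OnePoint K) ∨ x = (((c - u) / (v - u) : K) : OnePoint K)) ↔
        (x = ∞ ∨ x = ((0 : K) : OnePoint K) ∨ x = ((1 : K) : OnePoint K) ∨
          x = (a' : OnePoint K) ∨ x = (b' : OnePoint K) ∨ x = (c' : OnePoint K))) →
      IsB0 V (g • blk a b c) := by
    intro a' b' c' h2 h3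
    refine ⟨a', b', c', h2, ?_⟩
    rw [smul_blk_aff h hw]
    ext x
    rw [mem_blk, ← h3]
    simp only [Finset.mem_insert, Finset.mem_singleton]
  -- symmetrisation of the last three points
  have finsym : ∀ a1 b1 c1 : K, blk a b c = blk a1 b1 c1 → ∀ a' b' c' : K, V a' b' c' →
      (∀ x : OnePoint K, (x = ∞ ∨ x = (((0 - u) / (v - u) : K) : OnePoint K) ∨
        x = (((1 - u) / (v - u) : K) : OnePoint K) ∨ x = (((a1 - u) / (v - u) : K) : OnePoint K) ∨
        x = (((b1 - u) / (v - u) : K) : OnePoint K) ∨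
        x = (((c1 - u) / (v - u) : K) : OnePoint K)) ↔
        (x = ∞ ∨ x = ((0 : K) : OnePoint K) ∨ x = ((1 : K) : OnePoint K) ∨
          x = (a' : OnePoint K) ∨ x = (b' : OnePoint K) ∨ x = (c' : OnePoint K))) →
      IsB0 V (g • blk a b c) := by
    intro a1 b1 c1 h1 a' b' c' h2 h3
    refine ⟨a', b', c', h2, ?_⟩
    rw [h1, smul_blk_aff h hw]
    ext x
    rw [mem_blk, ← h3]
    simp only [Finset.mem_insert, Finset.mem_singleton]
  clear fin
  -- the three kinds of `u`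
  have ku0 : u = 0 → (v = a ∨ v = b ∨ v = c) → IsB0 V (g • blk a b c) := by
    intro hu0 hva
    obtain ⟨y, z, hV', hb⟩ := pick D hV hva
    have hv0 := D.ne0 _ _ _ hV'
    subst hu0
    rw [sub_zero] at hsq
    refine finsym _ _ _ hb _ _ _ (D.C0 _ _ _ hsq hV') ?_
    intro x
    have e1 : (0 - 0) / (v - 0) = 0 := by simp
    have e2 : (1 - 0) / (v - 0) = v⁻¹ := by simp
    have e3 : (v - 0) / (v - 0) = 1 := by rw [sub_zero]; exact div_self hv0
    have e4 : (y - 0) / (v - 0) = y * v⁻¹ := by simp [div_eq_mul_inv]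
    have e5 : (z - 0) / (v - 0) = z * v⁻¹ := by simp [div_eq_mul_inv]
    rw [e1, e2, e3, e4, e5]
    exact or_p1
  have ku1 : u = 1 → (v = a ∨ v = b ∨ v = c) → IsB0 V (g • blk a b c) := by
    intro hu0 hva
    obtain ⟨y, z, hV', hb⟩ := pick D hV hva
    have hv1 := D.ne1 _ _ _ hV'
    subst hu0
    refine finsym _ _ _ hb _ _ _ (D.C1 hsq hV') ?_
    intro x
    have e1 : (0 - 1) / (v - 1) = 1 / (1 - v) := by
      rw [← neg_sub v 1, zero_sub, neg_div, div_neg]
    have e2 : (1 - 1) / (v - 1) = 0 := by simp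
    have e3 : (v - 1) / (v - 1) = 1 := div_self (sub_ne_zero.2 hv1)
    rw [e1, e2, e3]
    exact or_p2
  have kua : (u = a ∨ u = b ∨ u = c) → IsB0 V (g • blk a b c) := by
    intro hua
    obtain ⟨y, z, hV', hb⟩ := pick D hV hua
    have hu0 := D.ne0 _ _ _ hV'
    have hu1 := D.ne1 _ _ _ hV'
    have hv3 : v = 0 ∨ v = 1 ∨ v = y ∨ v = z := by
      have h8 : (v : OnePoint K) ∈ blk u y z := by
        rw [← hb, mem_blk]
        simp only [OnePoint.coe_eq_coe]
        exact Or.inr hv2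
      rw [mem_blk] at h8
      simp only [OnePoint.coe_eq_coe, OnePoint.coe_ne_infty, false_or] at h8
      rcases h8 with h8 | h8 | h8 | h8
      · exact Or.inl h8
      · exact Or.inr (Or.inl h8)
      · exact absurd h8 hne'
      · exact Or.inr (Or.inr h8)
    rcases hv3 with rfl | rfl | hv3
    · -- `v = 0`
      have hns : ¬ IsSquare u := by
        have := D.neg_not hne hsq
        rwa [zero_sub, neg_neg] at this
      refine finsym _ _ _ hb _ _ _ (D.C0' _ _ _ hns hV') ?_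
      intro x
      have e1 : (0 - u) / (0 - u) = 1 := div_self hne
      have e2 : (1 - u) / (0 - u) = 1 - u⁻¹ := by
        rw [zero_sub, div_neg]
        field_simp
        ring
      have e3 : (u - u) / (0 - u) = 0 := by simp
      have e4 : (y - u) / (0 - u) = 1 - y * u⁻¹ := by
        rw [zero_sub, div_neg]
        field_simp
        ring
      have e5 : (z - u) / (0 - u) = 1 - z * u⁻¹ := by
        rw [zero_sub, div_neg]
        field_simp
        ring
      rw [e1, e2, e3, e4, e5]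
      exact or_p3
    · -- `v = 1`
      have hns : ¬ IsSquare (u - 1) := by
        have := D.neg_not hne hsq
        rwa [neg_sub] at this
      refine finsym _ _ _ hb _ _ _ (D.C1' hns hV') ?_
      intro x
      have e1 : (0 - u) / (1 - u) = u / (u - 1) := by
        rw [zero_sub, ← neg_sub u 1, neg_div_neg_eq]
      have e2 : (1 - u) / (1 - u) = 1 := div_self hne
      have e3 : (u - u) / (1 - u) = 0 := by simp
      rw [e1, e2, e3]
      exact or_p4
    · -- `v` is one of the other two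
      obtain ⟨z', hV2, hb2⟩ := pick2 D hV' hv3
      refine finsym _ _ _ (hb.trans hb2) _ _ _ (D.C2 hsq hV2) ?_
      intro x
      have e1 : (0 - u) / (v - u) = u / (u - v) := by
        rw [zero_sub, ← neg_sub u v, neg_div_neg_eq]
      have e2 : (u - u) / (v - u) = 0 := by simp
      have e3 : (v - u) / (v - u) = 1 := div_self hne
      rw [e1, e2, e3]
      exact or_p5
  rcases hu2 with hu0 | hu1 | hua
  · rcases hv2 with hv0 | hv1 | hva
    · exact absurd (hv0.trans hu0.symm) hne'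
    · subst hu0 hv1
      refine finsym _ _ _ rfl _ _ _ hV ?_
      intro x
      simp only [sub_zero, div_one]
    · exact ku0 hu0 hva
  · rcases hv2 with hv0 | hv1 | hva
    · exfalso
      subst hu1 hv0
      rw [zero_sub] at hsq
      exact D.neg hsq
    · exact absurd (hv1.trans hu1.symm) hne'
    · exact ku1 hu1 hva
  · exact kua hua

theorem claim1 (D : Data V) {B : Finset (OnePoint K)} (hB : IsB0 V B) {g : GL (Fin 2) K}
    (hg : Sq g) (hi : (∞ : OnePoint K) ∈ g • B) (h0 : ((0 : K) : OnePoint K) ∈ g • B)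
    (h1 : ((1 : K) : OnePoint K) ∈ g • B) : IsB0 V (g • B) := by
  obtain ⟨p, hp, hp2⟩ := Finset.mem_smul_finset.1 hi
  obtain ⟨k, hk, hk2, hk3⟩ := stepA D hB hp
  have e : g • B = (g * k⁻¹) • (k • B) := by
    rw [smul_smul, inv_mul_cancel_right]
  rw [e] at h0 h1 ⊢
  refine stepB D hk3 (hg.mul hk.inv) ?_ h0 h1
  rw [mul_smul, inv_smul_eq_iff.2 hk2.symm, hp2]

end Pool.Agent.H117R2.Steiner5
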