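import Pool.Agent.H117R2.Steiner5.Transport

/-!
The divisibility condition for Steiner systems.
-/

namespace Pool.Agent.H117R2.Steiner5

/-- The divisibility condition: `C(q-i, r-i)` divides `C(n-i, r-i)` for `i = 0, ..., r - 1`. -/
def Divisibility (n q r : ℕ) : Prop :=
  ∀ i < r, (q - i).choose (r - i) ∣ (n - i).choose (r - i)

theorem count {n q r : ℕ} (h : ∃ 𝓑 : Finset (Finset (Fin n)), IsSteiner n q r 𝓑) :
    q.choose r ∣ n.choose r := by
  classical
  obtain ⟨𝓑, h1, h2⟩ := h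
  have e : (Finset.univ : Finset (Fin n)).powersetCard r =
      𝓑.biUnion (fun B => B.powersetCard r) := by
    ext T
    simp only [Finset.mem_powersetCard, Finset.subset_univ, true_and, Finset.mem_biUnion]
    constructor
    · intro hT
      obtain ⟨B, ⟨hB, hTB⟩, _⟩ := h2 T hT
      exact ⟨B, hB, hTB, hT⟩
    · rintro ⟨B, _, _, hT⟩
      exact hT
  have hc : ((Finset.univ : Finset (Fin n)).powersetCard r).card = n.choose r := by
    rw [Finset.card_powersetCard, Finset.card_univ, Fintype.card_fin]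
  rw [← hc, e, Finset.card_biUnion]
  · apply Finset.dvd_sum
    intro B hB
    rw [Finset.card_powersetCard, h1 B hB]
  · intro B hB B' hB' hne
    rw [Function.onFun, Finset.disjoint_left]
    intro T hT hT'
    rw [Finset.mem_powersetCard] at hT hT'
    obtain ⟨B0, _, hu⟩ := h2 T hT.2
    exact hne ((hu B ⟨hB, hT.1⟩).trans (hu B' ⟨hB', hT'.1⟩).symm)

theorem derived_iter {n q r : ℕ} (hrq : r ≤ q) (hqn : q ≤ n)
    (h : ∃ 𝓑 : Finset (Finset (Fin n)), IsSteiner n q r 𝓑) (i : ℕ) (hi : i ≤ r) :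
    ∃ 𝓑 : Finset (Finset (Fin (n - i))), IsSteiner (n - i) (q - i) (r - i) 𝓑 := by
  induction i with
  | zero => exact h
  | succ i ih =>
    have h1 := ih (by omega)
    have en : n - i = n - (i + 1) + 1 := by omega
    have eq : q - i = q - (i + 1) + 1 := by omega
    have er : r - i = r - (i + 1) + 1 := by omega
    rw [en, eq, er] at h1
    exact derived h1

theorem div_of_steiner {n q r : ℕ} (hrq : r ≤ q) (hqn : q ≤ n)
    (h : ∃ 𝓑 : Finset (Finset (Fin n)), IsSteiner n q r 𝓑) : Divisibility n q r :=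
  fun i hi => count (derived_iter hrq hqn h i hi.le)

theorem mod3_of {m : ℕ} (h3 : 3 ∣ m.choose 2) :
    m % 3 ≠ 2 := by
  have e := Nat.descFactorial_eq_factorial_mul_choose m 2
  simp only [Nat.descFactorial_succ, Nat.descFactorial_zero, Nat.factorial] at e
  intro hm2
  obtain ⟨k, rfl⟩ : ∃ k, m = 3 * k + 2 := ⟨m / 3, by omega⟩
  have h4 : 3 ∣ (3 * k + 2 - 1) * (3 * k + 2) := by
    have : (3 * k + 2 - 1) * (3 * k + 2) = 2 * (3 * k + 2).choose 2 := by
      simpa using e
    rw [this]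
    exact Dvd.dvd.mul_left h3 2
  rw [show 3 * k + 2 - 1 = 3 * k + 1 by omega] at h4
  rcases (Nat.Prime.dvd_mul Nat.prime_three).1 h4 with h5 | h5 <;> omega

theorem mod5_of {m : ℕ} (h5 : 5 ∣ m.choose 4) : m % 5 ≠ 4 := by
  have e := Nat.descFactorial_eq_factorial_mul_choose m 4
  simp only [Nat.descFactorial_succ, Nat.descFactorial_zero, Nat.factorial] at e
  intro hm
  obtain ⟨k, rfl⟩ : ∃ k, m = 5 * k + 4 := ⟨m / 5, by omega⟩
  have h4 : 5 ∣ (5 * k + 4 - 3) * ((5 * k + 4 - 2) * ((5 * k + 4 - 1) * (5 * k + 4))) := by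
    have : (5 * k + 4 - 3) * ((5 * k + 4 - 2) * ((5 * k + 4 - 1) * (5 * k + 4))) =
        24 * (5 * k + 4).choose 4 := by
      simpa using e
    rw [this]
    exact Dvd.dvd.mul_left h5 24
  rw [show 5 * k + 4 - 3 = 5 * k + 1 by omega, show 5 * k + 4 - 2 = 5 * k + 2 by omega,
    show 5 * k + 4 - 1 = 5 * k + 3 by omega] at h4
  rcases (Nat.Prime.dvd_mul Nat.prime_five).1 h4 with h6 | h6
  · omega
  rcases (Nat.Prime.dvd_mul Nat.prime_five).1 h6 with h6 | h6
  · omega
  rcases (Nat.Prime.dvd_mul Nat.prime_five).1 h6 with h6 | h6 <;> omega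

theorem p_cases {p : ℕ} (hp : p.Prime) (h4 : p % 4 = 3) (h5 : 5 < p) (h347 : p < 347)
    (h3 : 3 ∣ (p - 2).choose 2) (h54 : 5 ∣ p.choose 4) :
    p ∈ ([11, 23, 47, 71, 83, 107, 131, 167, 191, 227, 251, 263, 311] : List ℕ) := by
  have e3 := mod3_of h3
  have e5 := mod5_of h54
  have e0 : p % 3 ≠ 0 := by
    intro h
    have h1 : 3 ∣ p := Nat.dvd_of_mod_eq_zero h
    rcases hp.eq_one_or_self_of_dvd 3 h1 with h2 | h2 <;> omega
  have e33 : p % 3 = 2 := by
    have h6 : p % 3 = 0 ∨ p % 3 = 1 ∨ p % 3 = 2 := by omega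
    rcases h6 with h6 | h6 | h6
    · exact absurd h6 e0
    · exfalso
      apply e3
      omega
    · exact h6
  obtain ⟨k, rfl⟩ : ∃ k, p = 12 * k + 11 := by
    refine ⟨p / 12, ?_⟩
    have h7 : p % 12 = 11 := by omega
    omega
  have hk : k < 28 := by omega
  clear h3 h54 e3 e0 e33 h4 h5 h347
  interval_cases k
  all_goals first
    | (exfalso; omega)
    | (simp; done)
    | (exfalso; revert hp; norm_num; done)

end Pool.Agent.H117R2.Steiner5
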