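import Mathlib

/-!
Steiner 5-designs `S(5,6,q+1)` on the projective line invariant under `PSL(2,q)`, `q ≡ 3 mod 4`:
a criterion in terms of the blocks through `∞, 0, 1`.
-/

namespace Pool.Agent.H117R2.Steiner5

open Matrix OnePoint Pointwise

set_option linter.unusedSectionVars false

variable {K : Type*} [Field K] [DecidableEq K]

/-- the determinant of `g` is a square -/
def Sq (g : GL (Fin 2) K) : Prop := IsSquare ((GeneralLinearGroup.det g : Kˣ) : K)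

theorem Sq.one : Sq (1 : GL (Fin 2) K) := by
  unfold Sq
  simp

theorem Sq.mul {g h : GL (Fin 2) K} (hg : Sq g) (hh : Sq h) : Sq (g * h) := by
  unfold Sq at *
  rw [map_mul, Units.val_mul]
  exact IsSquare.mul hg hh

theorem Sq.inv {g : GL (Fin 2) K} (hg : Sq g) : Sq g⁻¹ := by
  unfold Sq at *
  rw [map_inv, Units.val_inv_eq_inv_val]
  exact IsSquare.inv hg

/-- the Moebius transformation `w ↦ (a w + b) / (c w + d)` -/
def mob (a b c d : K) (h : a * d - b * c ≠ 0) : GL (Fin 2) K :=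
  GeneralLinearGroup.mkOfDetNeZero !![a, b; c, d] (by simpa [Matrix.det_fin_two] using h)

theorem mob_det (a b c d : K) (h : a * d - b * c ≠ 0) :
    ((GeneralLinearGroup.det (mob a b c d h) : Kˣ) : K) = a * d - b * c := by
  simp [mob, GeneralLinearGroup.mkOfDetNeZero, Matrix.det_fin_two]

theorem mob_infty (a b c d : K) (h : a * d - b * c ≠ 0) :
    mob a b c d h • (∞ : OnePoint K) = if c = 0 then ∞ else ((a / c : K) : OnePoint K) := by
  rw [smul_infty_eq_ite]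
  simp [mob, GeneralLinearGroup.mkOfDetNeZero]

theorem mob_coe (a b c d : K) (h : a * d - b * c ≠ 0) (k : K) :
    mob a b c d h • (k : OnePoint K) =
      if c * k + d = 0 then ∞ else (((a * k + b) / (c * k + d) : K) : OnePoint K) := by
  rw [smul_some_eq_ite]
  simp [mob, GeneralLinearGroup.mkOfDetNeZero]


/-- the translation of the data of the blocks through `∞, 0, 1`: `V a b c` says that
`{∞, 0, 1, a, b, c}` is a block -/
structure Data (V : K → K → K → Prop) : Prop where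
  ne0 : ∀ a b c, V a b c → a ≠ 0
  ne1 : ∀ a b c, V a b c → a ≠ 1
  nab : ∀ a b c, V a b c → a ≠ b
  s12 : ∀ a b c, V a b c → V b a c
  s23 : ∀ a b c, V a b c → V a c b
  ex : ∀ a b, a ≠ 0 → a ≠ 1 → b ≠ 0 → b ≠ 1 → a ≠ b → ∃ c, V a b c
  uniq : ∀ a b c c', V a b c → V a b c' → c = c'
  R : ∀ a b c, V a b c → V (1 - a)⁻¹ (1 - b)⁻¹ (1 - c)⁻¹
  C0 : ∀ a b c, IsSquare a → V a b c → V a⁻¹ (b * a⁻¹) (c * a⁻¹)
  C0' : ∀ a b c, ¬ IsSquare a → V a b c → V (1 - a⁻¹) (1 - b * a⁻¹) (1 - c * a⁻¹)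
  dich : ∀ a : K, IsSquare a ∨ IsSquare (-a)
  neg : ¬ IsSquare (-1 : K)

section
variable {V : K → K → K → Prop}

theorem Data.neg_not (D : Data V) {a : K} (ha : a ≠ 0) (h : IsSquare a) : ¬ IsSquare (-a) := by
  intro h2
  apply D.neg
  have : (-1 : K) = (-a) * a⁻¹ := by field_simp
  rw [this]
  exact h2.mul h.inv

theorem Data.sq_neg (D : Data V) {a : K} (h : ¬ IsSquare a) : IsSquare (-a) :=
  (D.dich a).resolve_left h

theorem Data.nac (D : Data V) {a b c : K} (h : V a b c) : a ≠ c := D.nab _ _ _ (D.s23 _ _ _ h)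
theorem Data.nbc (D : Data V) {a b c : K} (h : V a b c) : b ≠ c :=
  D.nab _ _ _ (D.s23 _ _ _ (D.s12 _ _ _ h))
theorem Data.ne0b (D : Data V) {a b c : K} (h : V a b c) : b ≠ 0 := D.ne0 _ _ _ (D.s12 _ _ _ h)
theorem Data.ne1b (D : Data V) {a b c : K} (h : V a b c) : b ≠ 1 := D.ne1 _ _ _ (D.s12 _ _ _ h)
theorem Data.ne0c (D : Data V) {a b c : K} (h : V a b c) : c ≠ 0 := D.ne0b (D.s23 _ _ _ h)
theorem Data.ne1c (D : Data V) {a b c : K} (h : V a b c) : c ≠ 1 := D.ne1b (D.s23 _ _ _ h)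

theorem sq_inv_iff {a : K} : IsSquare a⁻¹ ↔ IsSquare a := by
  constructor
  · intro h
    simpa using h.inv
  · intro h
    exact h.inv

theorem Data.C1 (D : Data V) {a b c : K} (hs : IsSquare (a - 1)) (h : V a b c) :
    V (1 / (1 - a)) ((b - 1) / (a - 1)) ((c - 1) / (a - 1)) := by
  have ha0 := D.ne0 _ _ _ h
  have ha1 := D.ne1 _ _ _ h
  have hb1 := D.ne1b h
  have hc1 := D.ne1c h
  have h1a : (1 - a) ≠ 0 := sub_ne_zero.2 (Ne.symm ha1)
  have h1a' : (a - 1) ≠ 0 := sub_ne_zero.2 ha1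
  have h1b : (1 - b) ≠ 0 := sub_ne_zero.2 (Ne.symm hb1)
  have h1c : (1 - c) ≠ 0 := sub_ne_zero.2 (Ne.symm hc1)
  have h1 := D.R _ _ _ h
  have hns : ¬ IsSquare ((1 - a)⁻¹) := by
    rw [sq_inv_iff]
    have := D.neg_not h1a' hs
    rwa [neg_sub] at this
  have h2 := D.C0' _ _ _ hns h1
  have e1 : 1 - (1 - a)⁻¹⁻¹ = a := by
    rw [inv_inv]; ring
  have e2 : 1 - (1 - b)⁻¹ * (1 - a)⁻¹⁻¹ = (a - b) / (1 - b) := by
    rw [inv_inv]; field_simp; ring
  have e3 : 1 - (1 - c)⁻¹ * (1 - a)⁻¹⁻¹ = (a - c) / (1 - c) := by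
    rw [inv_inv]; field_simp; ring
  rw [e1, e2, e3] at h2
  have h3 := D.R _ _ _ h2
  have f1 : (1 - a)⁻¹ = 1 / (1 - a) := by
    rw [one_div]
  have f2 : (1 - (a - b) / (1 - b))⁻¹ = (b - 1) / (a - 1) := by
    rw [show 1 - (a - b) / (1 - b) = (1 - a) / (1 - b) by field_simp; ring, inv_div,
      ← neg_sub b 1, ← neg_sub a 1, neg_div_neg_eq]
  have f3 : (1 - (a - c) / (1 - c))⁻¹ = (c - 1) / (a - 1) := by
    rw [show 1 - (a - c) / (1 - c) = (1 - a) / (1 - c) by field_simp; ring, inv_div,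
      ← neg_sub c 1, ← neg_sub a 1, neg_div_neg_eq]
  rw [f1, f2, f3] at h3
  exact h3

theorem Data.C1' (D : Data V) {a b c : K} (hs : ¬ IsSquare (a - 1)) (h : V a b c) :
    V (a / (a - 1)) ((b - a) / (1 - a)) ((c - a) / (1 - a)) := by
  have ha0 := D.ne0 _ _ _ h
  have ha1 := D.ne1 _ _ _ h
  have hb1 := D.ne1b h
  have hc1 := D.ne1c h
  have hab := D.nab _ _ _ h
  have hac := D.nac h
  have h1a : (1 - a) ≠ 0 := sub_ne_zero.2 (Ne.symm ha1)
  have h1a' : (a - 1) ≠ 0 := sub_ne_zero.2 ha1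
  have h1b : (1 - b) ≠ 0 := sub_ne_zero.2 (Ne.symm hb1)
  have h1c : (1 - c) ≠ 0 := sub_ne_zero.2 (Ne.symm hc1)
  have hab' : (a - b) ≠ 0 := sub_ne_zero.2 hab
  have hac' : (a - c) ≠ 0 := sub_ne_zero.2 hac
  have h1 := D.R _ _ _ h
  have hns : IsSquare ((1 - a)⁻¹) := by
    rw [sq_inv_iff]
    have := D.sq_neg hs
    rwa [neg_sub] at this
  have h2 := D.C0 _ _ _ hns h1
  have e1 : (1 - a)⁻¹⁻¹ = 1 - a := by
    rw [inv_inv]
  have e2 : (1 - b)⁻¹ * (1 - a)⁻¹⁻¹ = (1 - a) / (1 - b) := by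
    rw [inv_inv]; field_simp
  have e3 : (1 - c)⁻¹ * (1 - a)⁻¹⁻¹ = (1 - a) / (1 - c) := by
    rw [inv_inv]; field_simp
  rw [e2, e3, e1] at h2
  have h3 := D.R _ _ _ h2
  have f1 : (1 - (1 - a))⁻¹ = a⁻¹ := by
    congr 1; ring
  have f2 : (1 - (1 - a) / (1 - b))⁻¹ = (1 - b) / (a - b) := by
    rw [show 1 - (1 - a) / (1 - b) = (a - b) / (1 - b) by field_simp; ring, inv_div]
  have f3 : (1 - (1 - a) / (1 - c))⁻¹ = (1 - c) / (a - c) := by
    rw [show 1 - (1 - a) / (1 - c) = (a - c) / (1 - c) by field_simp; ring, inv_div]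
  rw [f1, f2, f3] at h3
  have h4 := D.R _ _ _ h3
  have g1 : (1 - a⁻¹)⁻¹ = a / (a - 1) := by
    rw [show 1 - a⁻¹ = (a - 1) / a by field_simp, inv_div]
  have g2 : (1 - (1 - b) / (a - b))⁻¹ = (b - a) / (1 - a) := by
    rw [show 1 - (1 - b) / (a - b) = (a - 1) / (a - b) by field_simp; ring, inv_div,
      ← neg_sub b a, ← neg_sub 1 a, neg_div_neg_eq]
  have g3 : (1 - (1 - c) / (a - c))⁻¹ = (c - a) / (1 - a) := by
    rw [show 1 - (1 - c) / (a - c) = (a - 1) / (a - c) by field_simp; ring, inv_div,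
      ← neg_sub c a, ← neg_sub 1 a, neg_div_neg_eq]
  rw [g1, g2, g3] at h4
  exact h4

theorem Data.C2 (D : Data V) {a b c : K} (hs : IsSquare (b - a)) (h : V a b c) :
    V (a / (a - b)) ((1 - a) / (b - a)) ((c - a) / (b - a)) := by
  have ha0 := D.ne0 _ _ _ h
  have ha1 := D.ne1 _ _ _ h
  have hab := D.nab _ _ _ h
  have hab' : (a - b) ≠ 0 := sub_ne_zero.2 hab
  have hba' : (b - a) ≠ 0 := sub_ne_zero.2 (Ne.symm hab)
  by_cases hsa : IsSquare a
  · have h1 := D.s12 _ _ _ (D.C0 _ _ _ hsa h)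
    have hs2 : IsSquare (b * a⁻¹ - 1) := by
      rw [show b * a⁻¹ - 1 = (b - a) * a⁻¹ by field_simp]
      exact hs.mul hsa.inv
    have h2 := D.C1 hs2 h1
    have e1 : 1 / (1 - b * a⁻¹) = a / (a - b) := by
      rw [show 1 - b * a⁻¹ = (a - b) / a by field_simp, one_div_div]
    have e2 : (a⁻¹ - 1) / (b * a⁻¹ - 1) = (1 - a) / (b - a) := by
      rw [show b * a⁻¹ - 1 = (b - a) / a by field_simp]
      field_simp
    have e3 : (c * a⁻¹ - 1) / (b * a⁻¹ - 1) = (c - a) / (b - a) := by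
      rw [show b * a⁻¹ - 1 = (b - a) / a by field_simp]
      field_simp
    rw [e1, e2, e3] at h2
    exact h2
  · have h1 := D.s12 _ _ _ (D.C0' _ _ _ hsa h)
    have hs2 : IsSquare (1 - b * a⁻¹) := by
      rw [show 1 - b * a⁻¹ = (b - a) * (-a)⁻¹ by rw [inv_neg]; field_simp; ring]
      exact hs.mul (D.sq_neg hsa).inv
    have h2 := D.C0 _ _ _ hs2 h1
    have e0 : (1 - b * a⁻¹)⁻¹ = a / (a - b) := by
      rw [show 1 - b * a⁻¹ = (a - b) / a by field_simp, inv_div]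
    have e2 : (1 - a⁻¹) * (a / (a - b)) = (1 - a) / (b - a) := by
      rw [← neg_sub b a, div_neg]
      field_simp
      ring
    have e3 : (1 - c * a⁻¹) * (a / (a - b)) = (c - a) / (b - a) := by
      rw [← neg_sub b a, div_neg]
      field_simp
      ring
    rw [e0, e2, e3] at h2
    exact h2

end

end Pool.Agent.H117R2.Steiner5
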