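import Pool.Agent.H117R2.Steiner5.Design

/-!
The Steiner 5-design: existence and uniqueness of the block through five points, transport to
`Fin n`, and the derived 4-design.
-/

namespace Pool.Agent.H117R2.Steiner5

open Matrix OnePoint Pointwise

set_option linter.unusedSectionVars false

variable {K : Type*} [Field K] [DecidableEq K] [DecidableEq (OnePoint K)]

variable {V : K → K → K → Prop}

/-- any three distinct points can be moved to `∞, 0, 1` (in some order) by a transformation with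
square determinant -/
theorem normal (D : Data V) {p q r : OnePoint K} (hpq : p ≠ q) (hpr : p ≠ r) (hqr : q ≠ r) :
    ∃ g : GL (Fin 2) K, Sq g ∧ g • p = ∞ ∧
      ((g • q = ((0 : K) : OnePoint K) ∧ g • r = ((1 : K) : OnePoint K)) ∨
        (g • q = ((1 : K) : OnePoint K) ∧ g • r = ((0 : K) : OnePoint K))) := by
  -- first move `p` to `∞`
  obtain ⟨g1, hg1, hp1⟩ : ∃ g : GL (Fin 2) K, Sq g ∧ g • p = ∞ := by
    induction p using OnePoint.rec with
    | infty => exact ⟨1, Sq.one, one_smul _ _⟩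
    | coe x =>
      refine ⟨mob 0 (-1) 1 (-x) (by norm_num), ?_, ?_⟩
      · unfold Sq
        rw [mob_det]
        exact ⟨1, by ring⟩
      · rw [mob_coe]
        simp
  -- the images of `q`, `r` are finite
  have hq1 : g1 • q ≠ ∞ := by
    rw [← hp1]
    intro h
    exact hpq ((smul_left_cancel g1 h).symm)
  have hr1 : g1 • r ≠ ∞ := by
    rw [← hp1]
    intro h
    exact hpr ((smul_left_cancel g1 h).symm)
  obtain ⟨y, hy⟩ := OnePoint.ne_infty_iff_exists.1 hq1
  obtain ⟨z, hz⟩ := OnePoint.ne_infty_iff_exists.1 hr1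
  have hyz : y ≠ z := by
    intro h
    rw [h] at hy
    exact hqr (smul_left_cancel g1 (hy.symm.trans hz))
  have hzy : z - y ≠ 0 := sub_ne_zero.2 (Ne.symm hyz)
  by_cases hs : IsSquare (z - y)
  · have hd : (1 : K) * (z - y) - (-y) * 0 ≠ 0 := by simpa using hzy
    refine ⟨mob 1 (-y) 0 (z - y) hd * g1, ?_, ?_, Or.inl ⟨?_, ?_⟩⟩
    · refine Sq.mul ?_ hg1
      unfold Sq
      rw [mob_det]
      simpa using hs
    · rw [mul_smul, hp1, mob_infty]
      simp
    · rw [mul_smul, ← hy, mob_coe, if_neg (by simpa using hzy)]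
      congr 1
      rw [one_mul, add_neg_cancel, zero_div]
    · rw [mul_smul, ← hz, mob_coe, if_neg (by simpa using hzy)]
      congr 1
      rw [one_mul, zero_mul, zero_add, ← sub_eq_add_neg, div_self hzy]
  · have hs' : IsSquare (y - z) := by
      have := D.sq_neg hs
      rwa [neg_sub] at this
    have hyz' : y - z ≠ 0 := sub_ne_zero.2 hyz
    have hd : (1 : K) * (y - z) - (-z) * 0 ≠ 0 := by simpa using hyz'
    refine ⟨mob 1 (-z) 0 (y - z) hd * g1, ?_, ?_, Or.inr ⟨?_, ?_⟩⟩
    · refine Sq.mul ?_ hg1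
      unfold Sq
      rw [mob_det]
      simpa using hs'
    · rw [mul_smul, hp1, mob_infty]
      simp
    · rw [mul_smul, ← hy, mob_coe, if_neg (by simpa using hyz')]
      congr 1
      rw [one_mul, zero_mul, zero_add, ← sub_eq_add_neg, div_self hyz']
    · rw [mul_smul, ← hz, mob_coe, if_neg (by simpa using hyz')]
      congr 1
      rw [one_mul, add_neg_cancel, zero_div]

/-- the blocks of the design -/
def Blocks (V : K → K → K → Prop) : Set (Finset (OnePoint K)) :=
  {B | ∃ g : GL (Fin 2) K, Sq g ∧ IsB0 V (g • B)}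

theorem card_blk (D : Data V) {a b c : K} (h : V a b c) : (blk a b c).card = 6 := by
  have h1 := D.ne0 _ _ _ h
  have h2 := D.ne1 _ _ _ h
  have h3 := D.ne0b h
  have h4 := D.ne1b h
  have h5 := D.ne0c h
  have h6 := D.ne1c h
  have h7 := D.nab _ _ _ h
  have h8 := D.nac h
  have h9 := D.nbc h
  unfold blk
  rw [Finset.card_insert_of_notMem, Finset.card_insert_of_notMem, Finset.card_insert_of_notMem,
    Finset.card_insert_of_notMem, Finset.card_insert_of_notMem, Finset.card_singleton]
  · simpa using h9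
  · simpa using ⟨h7, h8⟩
  · simpa using ⟨h2.symm, h4.symm, h6.symm⟩
  · simpa using ⟨h1.symm, h3.symm, h5.symm⟩
  · simp

theorem card_Blocks (D : Data V) {B : Finset (OnePoint K)} (hB : B ∈ Blocks V) : B.card = 6 := by
  obtain ⟨g, hg, a, b, c, h, hB⟩ := hB
  rw [← Finset.card_smul_finset g B, hB, card_blk D h]

theorem ex_block (D : Data V) (T : Finset (OnePoint K)) (hT : T.card = 5) :
    ∃! B, B ∈ Blocks V ∧ T ⊆ B := by
  -- three points of `T`
  obtain ⟨p, hp⟩ : T.Nonempty := by
    rw [← Finset.card_pos]; omega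
  have hT1 : (T.erase p).card = 4 := by rw [Finset.card_erase_of_mem hp]; omega
  obtain ⟨q, hq⟩ : (T.erase p).Nonempty := by
    rw [← Finset.card_pos]; omega
  have hT2 : ((T.erase p).erase q).card = 3 := by rw [Finset.card_erase_of_mem hq]; omega
  obtain ⟨r, hr⟩ : ((T.erase p).erase q).Nonempty := by
    rw [← Finset.card_pos]; omega
  have hT3 : (((T.erase p).erase q).erase r).card = 2 := by
    rw [Finset.card_erase_of_mem hr]; omega
  obtain ⟨s, t, hst, hS⟩ := Finset.card_eq_two.1 hT3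
  have hpq : p ≠ q := (Finset.ne_of_mem_erase hq).symm
  have hrq : r ≠ q := Finset.ne_of_mem_erase hr
  have hrp : r ≠ p := Finset.ne_of_mem_erase (Finset.mem_of_mem_erase hr)
  have hTeq : T = {p, q, r, s, t} := by
    rw [← Finset.insert_erase hp, ← Finset.insert_erase hq, ← Finset.insert_erase hr, hS]
  have hs : s ∈ ((T.erase p).erase q).erase r := by rw [hS]; simp
  have ht : t ∈ ((T.erase p).erase q).erase r := by rw [hS]; simp
  simp only [Finset.mem_erase] at hs ht
  obtain ⟨g, hg, gp, gqr⟩ := normal D hpq hrp.symm hrq.symm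
  -- the images of `s`, `t`
  have himg : ∀ x : OnePoint K, x ≠ p → x ≠ q → x ≠ r →
      ∃ a : K, g • x = (a : OnePoint K) ∧ a ≠ 0 ∧ a ≠ 1 := by
    intro x hxp hxq hxr
    have h1 : g • x ≠ ∞ := by
      rw [← gp]; intro h; exact hxp (smul_left_cancel g h)
    obtain ⟨a, ha⟩ := OnePoint.ne_infty_iff_exists.1 h1
    refine ⟨a, ha.symm, ?_, ?_⟩
    · rintro rfl
      rcases gqr with ⟨h2, h3⟩ | ⟨h2, h3⟩
      · exact hxq (smul_left_cancel g (ha.symm.trans h2.symm))
      · exact hxr (smul_left_cancel g (ha.symm.trans h3.symm))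
    · rintro rfl
      rcases gqr with ⟨h2, h3⟩ | ⟨h2, h3⟩
      · exact hxr (smul_left_cancel g (ha.symm.trans h3.symm))
      · exact hxq (smul_left_cancel g (ha.symm.trans h2.symm))
  obtain ⟨a, ha, ha0, ha1⟩ := himg s hs.2.2.1 hs.2.1 hs.1
  obtain ⟨b, hb, hb0, hb1⟩ := himg t ht.2.2.1 ht.2.1 ht.1
  have hab : a ≠ b := by
    rintro rfl
    exact hst (smul_left_cancel g (ha.trans hb.symm))
  obtain ⟨c, hc⟩ := D.ex a b ha0 ha1 hb0 hb1 hab
  -- `g • T = {∞, 0, 1, a, b}`
  have hgT : ∀ x : OnePoint K, x ∈ g • T ↔ x = ∞ ∨ x = ((0 : K) : OnePoint K) ∨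
      x = ((1 : K) : OnePoint K) ∨ x = (a : OnePoint K) ∨ x = (b : OnePoint K) := by
    intro x
    rw [hTeq]
    simp only [Finset.smul_finset_insert, Finset.smul_finset_singleton, Finset.mem_insert,
      Finset.mem_singleton, gp, ha, hb]
    rcases gqr with ⟨h2, h3⟩ | ⟨h2, h3⟩
    · rw [h2, h3]
    · rw [h2, h3]
      constructor
      · rintro (h | h | h | h)
        · exact Or.inl h
        · exact Or.inr (Or.inr (Or.inl h))
        · exact Or.inr (Or.inl h)
        · exact Or.inr (Or.inr (Or.inr h))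
      · rintro (h | h | h | h)
        · exact Or.inl h
        · exact Or.inr (Or.inr (Or.inl h))
        · exact Or.inr (Or.inl h)
        · exact Or.inr (Or.inr (Or.inr h))
  have hsub : g • T ⊆ blk a b c := by
    intro x hx
    rw [mem_blk]
    rcases (hgT x).1 hx with h | h | h | h | h
    · exact Or.inl h
    · exact Or.inr (Or.inl h)
    · exact Or.inr (Or.inr (Or.inl h))
    · exact Or.inr (Or.inr (Or.inr (Or.inl h)))
    · exact Or.inr (Or.inr (Or.inr (Or.inr (Or.inl h))))
  refine ⟨g⁻¹ • blk a b c, ⟨⟨g, hg, a, b, c, hc, by rw [smul_inv_smul]⟩, ?_⟩, ?_⟩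
  · rw [← Finset.smul_finset_subset_smul_finset_iff (a := g), smul_inv_smul]
    exact hsub
  · rintro B ⟨⟨k, hk, hkB⟩, hTB⟩
    have hgB : g • T ⊆ g • B := Finset.smul_finset_subset_smul_finset hTB
    have h1 : IsB0 V (g • B) := by
      have e : g • B = (g * k⁻¹) • (k • B) := by
        rw [smul_smul, inv_mul_cancel_right]
      rw [e] at hgB ⊢
      exact claim1 D hkB (hg.mul hk.inv) (hgB ((hgT _).2 (Or.inl rfl)))
        (hgB ((hgT _).2 (Or.inr (Or.inl rfl)))) (hgB ((hgT _).2 (Or.inr (Or.inr (Or.inl rfl)))))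
    obtain ⟨x, y, z, hV, hB⟩ := h1
    have haB : (a : OnePoint K) ∈ blk x y z := by
      rw [← hB]
      exact hgB ((hgT _).2 (Or.inr (Or.inr (Or.inr (Or.inl rfl)))))
    have hbB : (b : OnePoint K) ∈ blk x y z := by
      rw [← hB]
      exact hgB ((hgT _).2 (Or.inr (Or.inr (Or.inr (Or.inr rfl)))))
    rw [mem_blk] at haB hbB
    simp only [OnePoint.coe_eq_coe, OnePoint.coe_ne_infty, false_or] at haB hbB
    have ha2 : a = x ∨ a = y ∨ a = z := (haB.resolve_left ha0).resolve_left ha1
    have hb2 : b = x ∨ b = y ∨ b = z := (hbB.resolve_left hb0).resolve_left hb1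
    obtain ⟨y1, z1, hV1, e1⟩ := pick D hV ha2
    have hb3 : b = y1 ∨ b = z1 := by
      have h8 : (b : OnePoint K) ∈ blk a y1 z1 := by
        rw [← e1, mem_blk]
        simp only [OnePoint.coe_eq_coe]
        exact Or.inr (Or.inr (Or.inr hb2))
      rw [mem_blk] at h8
      simp only [OnePoint.coe_eq_coe, OnePoint.coe_ne_infty, false_or] at h8
      rcases h8 with h8 | h8 | h8 | h8
      · exact absurd h8 hb0
      · exact absurd h8 hb1
      · exact absurd h8 hab.symm
      · exact h8
    obtain ⟨z2, hV2, e2⟩ := pick2 D hV1 hb3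
    have hz : z2 = c := D.uniq _ _ _ _ hV2 hc
    rw [eq_inv_smul_iff, hB, e1, e2, hz]

end Pool.Agent.H117R2.Steiner5
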