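import Pool.Agent.H117R2.Steiner5.Steiner

/-!
Steiner systems on `Fin n`: transport of structure and derived designs.
-/

namespace Pool.Agent.H117R2.Steiner5

/-- `𝓑` is a Steiner system `S(n,q,r)` on the point set `Fin n`: a family of `q`-subsets such
that every `r`-subset of the points lies in exactly one member of the family. -/
def IsSteiner (n q r : ℕ) (𝓑 : Finset (Finset (Fin n))) : Prop :=
  (∀ B ∈ 𝓑, B.card = q) ∧ ∀ T : Finset (Fin n), T.card = r → ∃! B, B ∈ 𝓑 ∧ T ⊆ B

theorem toFin {X : Type*} {n q r : ℕ} (e : X ≃ Fin n) (𝓑 : Set (Finset X))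
    (h1 : ∀ B ∈ 𝓑, B.card = q)
    (h2 : ∀ T : Finset X, T.card = r → ∃! B, B ∈ 𝓑 ∧ T ⊆ B) :
    ∃ 𝓒 : Finset (Finset (Fin n)), IsSteiner n q r 𝓒 := by
  classical
  have hback : ∀ C : Finset (Fin n),
      (C.map e.symm.toEmbedding).map e.toEmbedding = C := by
    intro C
    rw [Finset.map_map]
    ext x
    simp
  have hforth : ∀ B : Finset X, (B.map e.toEmbedding).map e.symm.toEmbedding = B := by
    intro B
    rw [Finset.map_map]
    ext x
    simp
  refine ⟨Finset.univ.filter (fun C => C.map e.symm.toEmbedding ∈ 𝓑), ?_, ?_⟩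
  · intro C hC
    rw [← Finset.card_map e.symm.toEmbedding]
    exact h1 _ (Finset.mem_filter.1 hC).2
  · intro T hT
    obtain ⟨B, ⟨hB, hTB⟩, hu⟩ := h2 (T.map e.symm.toEmbedding) (by rw [Finset.card_map, hT])
    refine ⟨B.map e.toEmbedding, ⟨?_, ?_⟩, ?_⟩
    · rw [Finset.mem_filter, hforth]
      exact ⟨Finset.mem_univ _, hB⟩
    · rw [← Finset.map_subset_map (f := e.symm.toEmbedding), hforth]
      exact hTB
    · rintro C ⟨hC, hTC⟩
      rw [← hu (C.map e.symm.toEmbedding) ⟨(Finset.mem_filter.1 hC).2,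
        Finset.map_subset_map.2 hTC⟩, hback]

theorem derived {n q r : ℕ} (h : ∃ 𝓑 : Finset (Finset (Fin (n + 1))), IsSteiner (n + 1) (q + 1)
    (r + 1) 𝓑) : ∃ 𝓒 : Finset (Finset (Fin n)), IsSteiner n q r 𝓒 := by
  classical
  obtain ⟨𝓑, h1, h2⟩ := h
  set up : Finset (Fin n) → Finset (Fin (n + 1)) :=
    fun C => insert (Fin.last n) (C.map Fin.castSuccEmb) with hup
  have hcard : ∀ C, (up C).card = C.card + 1 := by
    intro C
    rw [hup]
    simp only
    rw [Finset.card_insert_of_notMem, Finset.card_map]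
    simp only [Finset.mem_map, Fin.castSuccEmb_apply, not_exists, not_and]
    intro x _ hx
    exact (Fin.castSucc_lt_last x).ne hx
  have hsub : ∀ C D, up C ⊆ up D ↔ C ⊆ D := by
    intro C D
    constructor
    · intro h x hx
      have h3 : Fin.castSucc x ∈ up D := h (Finset.mem_insert_of_mem
        (Finset.mem_map.2 ⟨x, hx, rfl⟩))
      rcases Finset.mem_insert.1 h3 with h4 | h4
      · exact absurd h4 (Fin.castSucc_lt_last x).ne
      · obtain ⟨y, hy, hy2⟩ := Finset.mem_map.1 h4
        have : y = x := Fin.castSucc_injective n hy2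
        rwa [← this]
    · intro h
      exact Finset.insert_subset_insert _ (Finset.map_subset_map.2 h)
  have hinj : ∀ C D, up C = up D → C = D := fun C D h =>
    Finset.Subset.antisymm ((hsub _ _).1 h.subset) ((hsub _ _).1 h.symm.subset)
  refine ⟨Finset.univ.filter (fun C => up C ∈ 𝓑), ?_, ?_⟩
  · intro C hC
    have := h1 _ (Finset.mem_filter.1 hC).2
    rw [hcard] at this
    omega
  · intro T hT
    obtain ⟨B, ⟨hB, hTB⟩, hu⟩ := h2 (up T) (by rw [hcard, hT])
    have hlast : Fin.last n ∈ B := hTB (Finset.mem_insert_self _ _)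
    have hBe : up (Finset.univ.filter (fun x : Fin n => Fin.castSucc x ∈ B)) = B := by
      ext y
      rw [hup]
      simp only [Finset.mem_insert, Finset.mem_map, Finset.mem_filter, Finset.mem_univ, true_and,
        Fin.castSuccEmb_apply]
      constructor
      · rintro (rfl | ⟨x, hx, rfl⟩)
        · exact hlast
        · exact hx
      · intro hy
        induction y using Fin.lastCases with
        | last => exact Or.inl rfl
        | cast x => exact Or.inr ⟨x, hy, rfl⟩
    refine ⟨Finset.univ.filter (fun x : Fin n => Fin.castSucc x ∈ B), ⟨?_, ?_⟩, ?_⟩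
    · rw [Finset.mem_filter, hBe]
      exact ⟨Finset.mem_univ _, hB⟩
    · rw [← hsub, hBe]
      exact hTB
    · rintro C ⟨hC, hTC⟩
      apply hinj
      rw [hBe]
      exact hu _ ⟨(Finset.mem_filter.1 hC).2, (hsub _ _).2 hTC⟩

open OnePoint in
/-- the main reduction -/
theorem steiner_of_data {K : Type*} [Field K] [Fintype K] {V : K → K → K → Prop}
    (D : Data V) : ∃ 𝓑 : Finset (Finset (Fin (Fintype.card K + 1))),
      IsSteiner (Fintype.card K + 1) 6 5 𝓑 := by
  classical
  have : Fintype (OnePoint K) := inferInstanceAs (Fintype (Option K))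
  have hc : Fintype.card (OnePoint K) = Fintype.card K + 1 := by
    have : Fintype.card (Option K) = Fintype.card K + 1 := Fintype.card_option
    rw [← this]
    exact Fintype.card_congr (Equiv.refl _)
  exact toFin (Fintype.equivFinOfCardEq hc) (Blocks V) (fun B hB => card_Blocks D hB)
    (fun T hT => ex_block D T hT)

end Pool.Agent.H117R2.Steiner5
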