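import Pool.Agent.H117R2.Steiner5.D11

/-!
Kernel check of the table `D11.tbl`.
-/

namespace Pool.Agent.H117R2.Steiner5.D11

theorem small : chkSmall 11 8 invs rhos sqs rts = true := by
  decide +kernel

theorem neg : cell 1 sqs (11 - 1) = 0 := by
  decide +kernel

theorem rows0 : chkRows 11 8 tbl invs rhos sqs 0 11 = true := by
  decide +kernel

/-- there is a Steiner system `S(12,6,5)` -/
theorem steiner : ∃ 𝓑 : Finset (Finset (Fin 12)), IsSteiner 12 6 5 𝓑 := by
  refine steiner_of_chk (p := 11) (t := tbl) (by norm_num) small neg ?_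
  intro x hx _
  exact ⟨0, 11, by omega, by omega, rows0⟩

end Pool.Agent.H117R2.Steiner5.D11
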