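import Pool.Agent.H117R2.Steiner5.D23

/-!
Kernel check of the table `D23.tbl`.
-/

namespace Pool.Agent.H117R2.Steiner5.D23

theorem small : chkSmall 23 8 invs rhos sqs rts = true := by
  decide +kernel

theorem neg : cell 1 sqs (23 - 1) = 0 := by
  decide +kernel

theorem rows0 : chkRows 23 8 tbl invs rhos sqs 0 16 = true := by
  decide +kernel

theorem rows16 : chkRows 23 8 tbl invs rhos sqs 16 7 = true := by
  decide +kernel

/-- there is a Steiner system `S(24,6,5)` -/
theorem steiner : ∃ 𝓑 : Finset (Finset (Fin 24)), IsSteiner 24 6 5 𝓑 := by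
  refine steiner_of_chk (p := 23) (t := tbl) (by norm_num) small neg ?_
  intro x hx _
  rcases Nat.lt_or_ge x 16 with h0 | h0
  · exact ⟨0, 16, by omega, by omega, rows0⟩
  exact ⟨16, 7, by omega, by omega, rows16⟩

end Pool.Agent.H117R2.Steiner5.D23
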