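import Pool.Agent.H117R2.Steiner5.D71

/-!
Kernel check of the table `D71.tbl`.
-/

namespace Pool.Agent.H117R2.Steiner5.D71

theorem small : chkSmall 71 8 invs rhos sqs rts = true := by
  decide +kernel

theorem neg : cell 1 sqs (71 - 1) = 0 := by
  decide +kernel

theorem rows0 : chkRows 71 8 tbl invs rhos sqs 0 16 = true := by
  decide +kernel

theorem rows16 : chkRows 71 8 tbl invs rhos sqs 16 16 = true := by
  decide +kernel

theorem rows32 : chkRows 71 8 tbl invs rhos sqs 32 16 = true := by
  decide +kernel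

theorem rows48 : chkRows 71 8 tbl invs rhos sqs 48 16 = true := by
  decide +kernel

theorem rows64 : chkRows 71 8 tbl invs rhos sqs 64 7 = true := by
  decide +kernel

/-- there is a Steiner system `S(72,6,5)` -/
theorem steiner : ∃ 𝓑 : Finset (Finset (Fin 72)), IsSteiner 72 6 5 𝓑 := by
  refine steiner_of_chk (p := 71) (t := tbl) (by norm_num) small neg ?_
  intro x hx _
  rcases Nat.lt_or_ge x 16 with h0 | h0
  · exact ⟨0, 16, by omega, by omega, rows0⟩
  rcases Nat.lt_or_ge x 32 with h1 | h1
  · exact ⟨16, 16, by omega, by omega, rows16⟩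
  rcases Nat.lt_or_ge x 48 with h2 | h2
  · exact ⟨32, 16, by omega, by omega, rows32⟩
  rcases Nat.lt_or_ge x 64 with h3 | h3
  · exact ⟨48, 16, by omega, by omega, rows48⟩
  exact ⟨64, 7, by omega, by omega, rows64⟩

end Pool.Agent.H117R2.Steiner5.D71
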